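import Pool.Agent.H969RP.Sub

/-!
A form of Bandlow's characterisation of Corson compact spaces: if there is a closing-off operation
`W` such that for every countable `W`-closed set `M` of points and functions the functions in `M`
separate the closure of the points in `M`, then `X` is Corson.
-/

set_option autoImplicit false

open Set Topology Cardinal

namespace Pool.Agent.H969RP

open Pool.Agent.Helper639.Cor

universe u

/-- `M` is closed under the set-valued operation `W` -/
def Cl {Z : Type u} (W : Finset Z → Set Z) (M : Set Z) : Prop :=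
  ∀ a : Finset Z, (↑a : Set Z) ⊆ M → W a ⊆ M

/-- countable closing off -/
theorem exists_cl {Z : Type u} (W : Finset Z → Set Z) (hW : ∀ a, (W a).Countable)
    {lam : Cardinal.{u}} (hlam : ℵ₀ ≤ lam) (C : Set Z) (hC : #C ≤ lam) :
    ∃ M, C ⊆ M ∧ Cl W M ∧ #M ≤ lam ∧ ∀ N, C ⊆ N → Cl W N → M ⊆ N := by
  classical
  let nx : Set Z → Set Z := fun M => M ∪ ⋃ a : Finset ↥M, W (a.map (Function.Embedding.subtype _))
  let M : ℕ → Set Z := fun n => Nat.rec C (fun _ M => nx M) n
  have hM : ∀ n, M (n + 1) = nx (M n) := fun n => rfl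
  have hmono : Monotone M := monotone_nat_of_le_succ fun n => by
    rw [hM]; exact subset_union_left
  have hcard : ∀ n, #(↥(M n)) ≤ lam := by
    intro n
    induction n with
    | zero => exact hC
    | succ n ih =>
      rw [hM]
      refine (Cardinal.mk_union_le _ _).trans ?_
      apply Cardinal.add_le_of_le hlam ih
      refine (Cardinal.mk_iUnion_le _).trans ?_
      calc #(Finset ↥(M n)) * (⨆ a : Finset ↥(M n), #(↥(W (a.map (Function.Embedding.subtype _)))))
          ≤ lam * lam := by
            apply mul_le_mul'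
            · exact (mk_finset_le _).trans (max_le ih hlam)
            · apply ciSup_le'
              intro a
              exact (Cardinal.le_aleph0_iff_set_countable.2 (hW _)).trans hlam
        _ = lam := Cardinal.mul_eq_self hlam
  refine ⟨⋃ n, M n, subset_iUnion M 0, ?_, ?_, ?_⟩
  · intro a ha
    have h1 : ∃ n, (↑a : Set Z) ⊆ M n := by
      induction a using Finset.induction_on with
      | empty => exact ⟨0, by simp⟩
      | insert z t _ ih =>
        obtain ⟨n, hn⟩ := ih (fun k hk => ha (Finset.mem_coe.2 (Finset.mem_insert_of_mem hk)))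
        obtain ⟨m, hm⟩ := mem_iUnion.1 (ha (Finset.mem_coe.2 (Finset.mem_insert_self z t)))
        refine ⟨max n m, ?_⟩
        intro k hk
        rcases Finset.mem_insert.1 (Finset.mem_coe.1 hk) with rfl | hk
        · exact hmono (le_max_right _ _) hm
        · exact hmono (le_max_left _ _) (hn hk)
    obtain ⟨n, hn⟩ := h1
    refine subset_trans ?_ (subset_iUnion M (n + 1))
    rw [hM]
    refine subset_trans ?_ subset_union_right
    let b : Finset ↥(M n) := @Finset.subtype Z (fun z : Z => z ∈ M n) (Classical.decPred _) a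
    have hb : b.map (Function.Embedding.subtype _) = a := by
      ext z
      simp only [b, Finset.mem_map, Finset.mem_subtype, Function.Embedding.subtype_apply,
        Subtype.exists, exists_and_left, exists_prop]
      constructor
      · rintro ⟨w, hw, hwM, rfl⟩; exact hw
      · intro hz; exact ⟨z, hz, hn hz, rfl⟩
    have := subset_iUnion (fun a : Finset ↥(M n) => W (a.map (Function.Embedding.subtype _))) b
    simpa only [hb] using this
  · have h1 : #(↥(⋃ n : ULift.{u} ℕ, M n.down)) ≤ lam := by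
      refine (Cardinal.mk_iUnion_le _).trans ?_
      calc #(ULift.{u} ℕ) * (⨆ n : ULift.{u} ℕ, #(↥(M n.down))) ≤ lam * lam := by
            apply mul_le_mul'
            · simpa using hlam
            · exact ciSup_le' fun n => hcard n.down
        _ = lam := Cardinal.mul_eq_self hlam
    refine le_trans (Cardinal.mk_le_mk_of_subset ?_) h1
    exact iUnion_subset fun n => subset_iUnion (fun n : ULift.{u} ℕ => M n.down) ⟨n⟩
  · intro N hCN hN
    apply iUnion_subset
    intro n
    induction n with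
    | zero => exact hCN
    | succ n ih =>
      rw [hM]
      refine union_subset ih (iUnion_subset fun a => hN _ ?_)
      intro z hz
      simp only [Finset.coe_map, Function.Embedding.subtype_apply, mem_image, Finset.mem_coe] at hz
      obtain ⟨w, -, rfl⟩ := hz
      exact ih w.2

variable {X : Type u} [TopologicalSpace X]

/-- the points in `M` -/
def PX (M : Set (X ⊕ C(X, ℝ))) : Set X := {x | Sum.inl x ∈ M}

/-- the functions in `M` -/
def PC (M : Set (X ⊕ C(X, ℝ))) : Set C(X, ℝ) := {f | Sum.inr f ∈ M}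

theorem PX_mono {M N : Set (X ⊕ C(X, ℝ))} (h : M ⊆ N) : PX M ⊆ PX N := fun _ hx => h hx

theorem PC_mono {M N : Set (X ⊕ C(X, ℝ))} (h : M ⊆ N) : PC M ⊆ PC N := fun _ hx => h hx

/-- closing-off with respect to density -/
theorem exists_dens [CompactSpace X] : ∃ W : Finset (X ⊕ C(X, ℝ)) → Set (X ⊕ C(X, ℝ)),
    (∀ a, (W a).Countable) ∧ ∀ M, Cl W M → Dn univ (PX M) (PC M) := by
  classical
  choose C _ hC2 hC3 using fun E : Set C(X, ℝ) => lemA (univ : Set X) E
  refine ⟨fun a => Sum.inl '' C {f | Sum.inr f ∈ a}, fun a => ?_, fun M hM => ?_⟩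
  · refine Set.Countable.image ?_ _
    rw [← Cardinal.le_aleph0_iff_set_countable]
    refine (hC2 _).trans (max_le ?_ le_rfl)
    rw [Cardinal.le_aleph0_iff_set_countable]
    refine Set.Finite.countable ?_
    have : ({f : C(X, ℝ) | (Sum.inr f : X ⊕ C(X, ℝ)) ∈ a} : Set C(X, ℝ)) =
        Sum.inr ⁻¹' (↑a : Set (X ⊕ C(X, ℝ))) := rfl
    rw [this]
    exact a.finite_toSet.preimage Sum.inr_injective.injOn
  · have h1 : Dn univ (⋃ _t : {t : Finset C(X, ℝ) // (↑t : Set C(X, ℝ)) ⊆ PC M}, PX M)
        (⋃ t : {t : Finset C(X, ℝ) // (↑t : Set C(X, ℝ)) ⊆ PC M}, (↑t.1 : Set C(X, ℝ))) := by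
      have : Nonempty {t : Finset C(X, ℝ) // (↑t : Set C(X, ℝ)) ⊆ PC M} := ⟨⟨∅, by simp⟩⟩
      apply Dn_iUnion
      · intro t t'
        refine ⟨⟨t.1 ∪ t'.1, by
          rw [Finset.coe_union]; exact union_subset t.2 t'.2⟩, subset_rfl, subset_rfl, ?_, ?_⟩
        · intro f hf; exact Finset.mem_coe.2 (Finset.mem_union_left _ (Finset.mem_coe.1 hf))
        · intro f hf; exact Finset.mem_coe.2 (Finset.mem_union_right _ (Finset.mem_coe.1 hf))
      · intro t x _
        obtain ⟨x', hx', hf⟩ := hC3 {f | Sum.inr f ∈ t.1.map ⟨Sum.inr, Sum.inr_injective⟩} x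
          (by rw [closure_univ]; trivial)
        refine ⟨x', closure_mono ?_ hx', fun f hft => hf f ?_⟩
        · intro c hc
          refine hM (t.1.map ⟨Sum.inr, Sum.inr_injective⟩) ?_ ⟨c, hc, rfl⟩
          intro z hz
          simp only [Finset.coe_map, Function.Embedding.coeFn_mk, mem_image, Finset.mem_coe] at hz
          obtain ⟨g, hg, rfl⟩ := hz
          exact t.2 hg
        · simp only [mem_ofPred_eq, Finset.mem_map, Function.Embedding.coeFn_mk]
          exact ⟨f, hft, rfl⟩
    intro x hx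
    obtain ⟨x', hx', hf⟩ := h1 x hx
    have : Nonempty {t : Finset C(X, ℝ) // (↑t : Set C(X, ℝ)) ⊆ PC M} := ⟨⟨∅, by simp⟩⟩
    rw [iUnion_const] at hx'
    refine ⟨x', hx', fun f hfM => hf f (mem_iUnion.2 ⟨⟨{f}, ?_⟩, ?_⟩)⟩
    · intro g hg
      rw [Finset.coe_singleton, mem_singleton_iff] at hg
      rw [hg]; exact hfM
    · simp

/-- the induction on the cardinality of closed sets -/
theorem band_aux [CompactSpace X] [T2Space X] (hct : CTight X)
    (W : Finset (X ⊕ C(X, ℝ)) → Set (X ⊕ C(X, ℝ))) (hW : ∀ a, (W a).Countable)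
    (hgood : ∀ M, Cl W M → Good (PX M) (PC M)) (kap : Cardinal.{u}) :
    ∀ M : Set (X ⊕ C(X, ℝ)), Cl W M → #M = kap → CorsonOn (closure (PX M)) := by
  classical
  induction kap using WellFoundedLT.induction with
  | ind kap ih =>
  intro M hM hMk
  rcases le_or_gt kap ℵ₀ with hk | hk
  · have hMc : M.Countable := by rw [← Cardinal.le_aleph0_iff_set_countable, hMk]; exact hk
    refine ⟨PC M, fun x _ => ?_, (hgood M hM).2⟩
    have h1 : (PC M).Countable := hMc.preimage Sum.inr_injective
    exact h1.mono fun f hf => hf.1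
  · have hP : ∀ S : Set M, #S < kap → ∃ S', S ⊆ S' ∧ Cl W (Subtype.val '' S') ∧
        #S' ≤ max #S ℵ₀ := by
      intro S _
      obtain ⟨S', h1, h2, h3, h4⟩ := exists_cl W hW (lam := max #S ℵ₀) (le_max_right _ _)
        (Subtype.val '' S) (Cardinal.mk_image_le.trans (le_max_left _ _))
      have h5 : S' ⊆ M := h4 M (by rintro _ ⟨z, -, rfl⟩; exact z.2) hM
      have h6 : (Subtype.val '' {z : M | z.1 ∈ S'} : Set (X ⊕ C(X, ℝ))) = S' := by
        ext z
        constructor
        · rintro ⟨w, hw, rfl⟩; exact hw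
        · intro hz; exact ⟨⟨z, h5 hz⟩, hz, rfl⟩
      refine ⟨{z | z.1 ∈ S'}, fun z hz => h1 ⟨z, hz, rfl⟩, by rw [h6]; exact h2, ?_⟩
      refine le_trans ?_ h3
      refine Cardinal.mk_le_of_injective (f := fun z : {z : M | z.1 ∈ S'} => (⟨z.1.1, z.2⟩ : S')) ?_
      intro a b hab
      exact Subtype.ext (Subtype.ext (congrArg (fun t : S' => t.1) hab))
    obtain ⟨ι, _, _, hne, S, hSmono, hSP, hScard, hSlim, hSun⟩ := chain_exists (T := M)
      (kap := kap) ℵ₀ le_rfl hk (fun S => Cl W (Subtype.val '' S))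
      (by
        rintro 𝒮 hne hch hall a ha
        have h1 : ∃ S ∈ 𝒮, (↑a : Set (X ⊕ C(X, ℝ))) ⊆ Subtype.val '' S := by
          induction a using Finset.induction_on with
          | empty =>
            obtain ⟨S, hS⟩ := hne
            exact ⟨S, hS, by simp⟩
          | insert z t _ iht =>
            obtain ⟨S, hS, hS'⟩ := iht (fun k hk =>
              ha (Finset.mem_coe.2 (Finset.mem_insert_of_mem hk)))
            obtain ⟨w, ⟨T, hT, hwT⟩, hw⟩ := ha (Finset.mem_coe.2 (Finset.mem_insert_self z t))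
            rcases hch.total hS hT with h | h
            · refine ⟨T, hT, ?_⟩
              intro k hk
              rcases Finset.mem_insert.1 (Finset.mem_coe.1 hk) with rfl | hk
              · exact ⟨w, hwT, hw⟩
              · exact image_mono h (hS' hk)
            · refine ⟨S, hS, ?_⟩
              intro k hk
              rcases Finset.mem_insert.1 (Finset.mem_coe.1 hk) with rfl | hk
              · exact ⟨w, h hwT, hw⟩
              · exact hS' hk
        obtain ⟨S, hS, haS⟩ := h1
        exact (hall S hS a haS).trans (image_mono (subset_sUnion_of_mem hS)))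
      hP univ (by rw [Cardinal.mk_univ, hMk])
    -- the subspace
    let Y : Set X := closure (PX M)
    have hYc : IsClosed Y := isClosed_closure
    have : CompactSpace Y := isCompact_iff_compactSpace.1 hYc.isCompact
    let Mi : ι → Set (X ⊕ C(X, ℝ)) := fun i => Subtype.val '' S i
    have hMiM : ∀ i, Mi i ⊆ M := by
      rintro i _ ⟨z, -, rfl⟩; exact z.2
    have hMimono : Monotone Mi := fun i j hij => image_mono (hSmono hij)
    have hMiY : ∀ i, closure (PX (Mi i)) ⊆ Y := fun i => closure_mono (PX_mono (hMiM i))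
    let B : ι → Set Y := fun i => {y | y.1 ∈ PX (Mi i)}
    let Fi : ι → Set C(Y, ℝ) := fun i => (fun f : C(X, ℝ) => f.restrict Y) '' PC (Mi i)
    have hBim : ∀ i, (Subtype.val '' B i : Set X) = PX (Mi i) := by
      intro i
      ext x
      constructor
      · rintro ⟨y, hy, rfl⟩; exact hy
      · intro hx; exact ⟨⟨x, hMiY i (subset_closure hx)⟩, hx, rfl⟩
    have hBcl : ∀ i (y : Y), y ∈ closure (B i) ↔ y.1 ∈ closure (PX (Mi i)) := by
      intro i y
      rw [closure_subtype, hBim]
    apply CorsonOn.of_subtype hYc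
    refine chain_lemma (X := Y) ?_ B Fi ?_ ?_ ?_ ?_ ?_ ?_ ?_ ?_
    · -- countable tightness of Y
      intro A y hy
      rw [closure_subtype] at hy
      obtain ⟨C, hCA, hC, hyC⟩ := hct _ _ hy
      refine ⟨Subtype.val ⁻¹' C, ?_, hC.preimage Subtype.val_injective, ?_⟩
      · intro c hc
        obtain ⟨a, ha, hac⟩ := hCA hc
        have : a = c := Subtype.ext hac
        rw [← this]; exact ha
      · rw [closure_subtype]
        have : (Subtype.val '' (Subtype.val ⁻¹' C : Set Y) : Set X) = C := by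
          rw [Subtype.image_preimage_coe]
          refine inter_eq_self_of_subset_right ?_
          intro c hc
          obtain ⟨a, ha, hac⟩ := hCA hc
          rw [← hac]; exact a.2
        rw [this]; exact hyC
    · intro i j hij y hy
      exact PX_mono (hMimono hij) hy
    · intro i j hij
      exact image_mono (PC_mono (hMimono hij))
    · intro i
      have hg := hgood (Mi i) (hSP i)
      refine ⟨?_, ?_⟩
      · intro y _
        obtain ⟨x', hx', hf⟩ := hg.1 y.1 (mem_univ _)
        refine ⟨⟨x', hMiY i hx'⟩, (hBcl i _).2 hx', ?_⟩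
        rintro _ ⟨f, hfM, rfl⟩
        exact hf f hfM
      · intro x hx y hy hxy
        apply Subtype.ext
        refine hg.2 x.1 ((hBcl i x).1 hx) y.1 ((hBcl i y).1 hy) fun f hf => ?_
        exact hxy _ ⟨f, hf, rfl⟩
    · rintro i hi y ⟨z, hz, hzy⟩
      obtain ⟨j, hj, hzj⟩ := hSlim i hi z hz
      exact ⟨j, hj, ⟨z, hzj, hzy⟩⟩
    · rintro i hi _ ⟨f, ⟨z, hz, hzf⟩, rfl⟩
      obtain ⟨j, hj, hzj⟩ := hSlim i hi z hz
      exact ⟨j, hj, f, ⟨z, hzj, hzf⟩, rfl⟩
    · intro y
      rw [closure_subtype]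
      have : (PX M : Set X) ⊆ Subtype.val '' (⋃ i, B i) := by
        intro x hx
        obtain ⟨i, hi⟩ := mem_iUnion.1 (hSun (mem_univ (⟨Sum.inl x, hx⟩ : M)))
        exact ⟨⟨x, subset_closure hx⟩, mem_iUnion.2 ⟨i, ⟨_, hi, rfl⟩⟩, rfl⟩
      exact closure_mono this y.2
    · intro x _ y _ hxy
      apply Subtype.ext
      refine (hgood M hM).2 x.1 x.2 y.1 y.2 fun f hf => ?_
      obtain ⟨i, hi⟩ := mem_iUnion.1 (hSun (mem_univ (⟨Sum.inr f, hf⟩ : M)))
      exact hxy _ (mem_iUnion.2 ⟨i, f, ⟨_, hi, rfl⟩, rfl⟩)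
    · intro i
      have hcard : #(Mi i) < kap := Cardinal.mk_image_le.trans_lt (hScard i)
      obtain ⟨F, hF1, hF2⟩ := ih _ hcard (Mi i) (hSP i) rfl
      refine ⟨(fun f : C(X, ℝ) => f.restrict Y) '' F, ?_, ?_⟩
      · intro x hx
        have : {f | f ∈ (fun f : C(X, ℝ) => f.restrict Y) '' F ∧ f x ≠ 0} ⊆
            (fun f : C(X, ℝ) => f.restrict Y) '' {f | f ∈ F ∧ f x.1 ≠ 0} := by
          rintro f ⟨⟨g, hg, rfl⟩, hne⟩
          exact ⟨g, ⟨hg, hne⟩, rfl⟩
        exact ((hF1 x.1 ((hBcl i x).1 hx)).image _).mono this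
      · intro x hx y hy hxy
        apply Subtype.ext
        refine hF2 x.1 ((hBcl i x).1 hx) y.1 ((hBcl i y).1 hy) fun f hf => ?_
        exact hxy _ ⟨f, hf, rfl⟩

/-- Bandlow's theorem -/
theorem band [CompactSpace X] [T2Space X] (hct : CTight X)
    (W : Finset (X ⊕ C(X, ℝ)) → Set (X ⊕ C(X, ℝ))) (hW : ∀ a, (W a).Countable)
    (hsep : ∀ M : Set (X ⊕ C(X, ℝ)), M.Countable → Cl W M → SepOn (closure (PX M)) (PC M)) :
    CorsonOn (univ : Set X) := by
  classical
  obtain ⟨V, hV, hVd⟩ := exists_dens (X := X)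
  have hW' : ∀ a, (W a ∪ V a).Countable := fun a => (hW a).union (hV a)
  have hgood : ∀ M, Cl (fun a => W a ∪ V a) M → Good (PX M) (PC M) := by
    intro M hM
    refine ⟨hVd M fun a ha => subset_union_right.trans (hM a ha), ?_⟩
    intro x hx y hy hxy
    obtain ⟨C, hC, hCc, hxC⟩ := hct _ x hx
    obtain ⟨D, hD, hDc, hyD⟩ := hct _ y hy
    obtain ⟨N, h1, h2, h3, h4⟩ := exists_cl (fun a => W a ∪ V a) hW' le_rfl
      (Sum.inl '' (C ∪ D) : Set (X ⊕ C(X, ℝ)))
      (Cardinal.le_aleph0_iff_set_countable.2 ((hCc.union hDc).image _))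
    have h5 : N ⊆ M := h4 M (by
      rintro _ ⟨c, hc | hc, rfl⟩
      · exact hC hc
      · exact hD hc) hM
    refine hsep N (Cardinal.le_aleph0_iff_set_countable.1 h3)
      (fun a ha => subset_union_left.trans (h2 a ha)) x ?_ y ?_ fun f hf => hxy f (h5 hf)
    · exact closure_mono (show C ⊆ PX N from fun c hc => h1 ⟨c, Or.inl hc, rfl⟩) hxC
    · exact closure_mono (show D ⊆ PX N from fun c hc => h1 ⟨c, Or.inr hc, rfl⟩) hyD
  have h := band_aux hct (fun a => W a ∪ V a) hW' hgood _ Set.univ (fun _ _ => subset_univ _) rfl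
  have hu : closure (PX (Set.univ : Set (X ⊕ C(X, ℝ)))) = Set.univ := by
    have : PX (Set.univ : Set (X ⊕ C(X, ℝ))) = Set.univ := by ext; simp [PX]
    rw [this, closure_univ]
  rwa [hu] at h

end Pool.Agent.H969RP
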