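import Pool.Agent.H969RP.Band

/-!
Reflection of stationary sets to countably closed sets of size at most the continuum implies that a
compact space is Corson if the closures of its subsets of size at most the continuum are.
-/

set_option autoImplicit false

open Set Topology Cardinal

namespace Pool.Agent.H969RP

open Pool.Agent.Helper639.Cor

/-- `𝒮` is stationary in the countable subsets of `N` -/
def Stat {Z : Type} (𝒮 : Set (Set Z)) (N : Set Z) : Prop :=
  ∀ W : Finset Z → Set Z, (∀ a, (W a).Countable) → Cl W N →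
    ∃ M ∈ 𝒮, M.Countable ∧ M ⊆ N ∧ Cl W M

/-- Stationary families of countable sets reflect to sets of size at most the continuum which are
closed under a given infinitary operation. -/
def Reflects : Prop := ∀ (Z : Type) (G : (ℕ → Z) → Set Z), (∀ s, (G s).Countable) →
  ∀ 𝒮 : Set (Set Z), Stat 𝒮 Set.univ →
    ∃ N : Set Z, #N ≤ continuum ∧ (∀ s : ℕ → Z, (∀ n, s n ∈ N) → G s ⊆ N) ∧ Stat 𝒮 N

variable {X : Type} [TopologicalSpace X]

theorem PX_card {N : Set (X ⊕ C(X, ℝ))} (hN : #N ≤ continuum) : #(PX N) ≤ continuum := by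
  refine le_trans ?_ hN
  refine Cardinal.mk_le_of_injective (f := fun x : PX N => (⟨Sum.inl x.1, x.2⟩ : N)) ?_
  intro x y h
  exact Subtype.ext (Sum.inl_injective (congrArg (fun t : N => t.1) h))

theorem ctight_of [CompactSpace X] [T2Space X] (hR : Reflects)
    (hcor : ∀ A : Set X, #A ≤ continuum → CorsonOn (closure A)) : CTight X := by
  classical
  intro B x hx
  by_contra hcon
  push Not at hcon
  have h1 : ∀ D : Set X, ∃ f : C(X, ℝ), D ⊆ B → D.Countable →
      (∀ y ∈ closure D, f y = 0) ∧ f x = 1 := by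
    intro D
    by_cases hD : D ⊆ B ∧ D.Countable
    · have hdis : Disjoint (closure D) {x} := by
        rw [Set.disjoint_singleton_right]
        exact hcon D hD.1 hD.2
      obtain ⟨f, hf0, hf1, -⟩ := exists_continuous_zero_one_of_isClosed isClosed_closure
        isClosed_singleton hdis
      exact ⟨f, fun _ _ => ⟨fun y hy => hf0 hy, hf1 rfl⟩⟩
    · exact ⟨0, fun h2 h3 => absurd ⟨h2, h3⟩ hD⟩
  choose f hf using h1
  choose C hC1 hC2 hC3 using fun E : Set C(X, ℝ) => lemA B E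
  let z₀ : X ⊕ C(X, ℝ) := Sum.inr 0
  let G : (ℕ → X ⊕ C(X, ℝ)) → Set (X ⊕ C(X, ℝ)) := fun s =>
    {Sum.inr (f (PX (range s) ∩ B))} ∪ Sum.inl '' (C (PC (range s)))
  have hG : ∀ s, (G s).Countable := by
    intro s
    refine (countable_singleton _).union (Set.Countable.image ?_ _)
    rw [← Cardinal.le_aleph0_iff_set_countable]
    refine (hC2 _).trans (max_le ?_ le_rfl)
    rw [Cardinal.le_aleph0_iff_set_countable]
    exact (countable_range s).preimage Sum.inr_injective
  obtain ⟨N, hN1, hN2, hN3⟩ := hR _ G hG {M | z₀ ∈ M} (by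
    intro W hW _
    obtain ⟨M, a1, a2, a3, -⟩ := exists_cl W hW le_rfl {z₀}
      (Cardinal.le_aleph0_iff_set_countable.2 (countable_singleton z₀))
    exact ⟨M, a1 rfl, Cardinal.le_aleph0_iff_set_countable.1 a3, subset_univ _, a2⟩)
  have hz : z₀ ∈ N := by
    obtain ⟨M, b1, -, b2, -⟩ := hN3 (fun _ => ∅) (fun _ => countable_empty)
      (fun _ _ => empty_subset _)
    exact b2 b1
  have hen : ∀ T : Set (X ⊕ C(X, ℝ)), T ⊆ N → T.Countable →
      ∃ s : ℕ → X ⊕ C(X, ℝ), (∀ n, s n ∈ N) ∧ range s = insert z₀ T := by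
    intro T hT hTc
    obtain ⟨s, hs⟩ := (hTc.insert z₀).exists_eq_range ⟨z₀, Or.inl rfl⟩
    refine ⟨s, fun n => ?_, hs.symm⟩
    have : s n ∈ insert z₀ T := by rw [hs]; exact ⟨n, rfl⟩
    rcases this with h | h
    · rw [h]; exact hz
    · exact hT h
  have hD : Dn (closure B) (PX N ∩ B) (PC N) := by
    have hne : Nonempty {t : Finset C(X, ℝ) // (↑t : Set C(X, ℝ)) ⊆ PC N} := ⟨⟨∅, by simp⟩⟩
    have h2 : Dn (closure B) (⋃ _t : {t : Finset C(X, ℝ) // (↑t : Set C(X, ℝ)) ⊆ PC N}, PX N ∩ B)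
        (⋃ t : {t : Finset C(X, ℝ) // (↑t : Set C(X, ℝ)) ⊆ PC N}, (↑t.1 : Set C(X, ℝ))) := by
      apply Dn_iUnion
      · intro t t'
        refine ⟨⟨t.1 ∪ t'.1, by
          rw [Finset.coe_union]; exact union_subset t.2 t'.2⟩, subset_rfl, subset_rfl, ?_, ?_⟩
        · intro f hf; exact Finset.mem_coe.2 (Finset.mem_union_left _ (Finset.mem_coe.1 hf))
        · intro f hf; exact Finset.mem_coe.2 (Finset.mem_union_right _ (Finset.mem_coe.1 hf))
      · intro t y hy
        obtain ⟨s, hs1, hs2⟩ := hen (Sum.inr '' (↑t.1 : Set C(X, ℝ)))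
          (by rintro _ ⟨g, hg, rfl⟩; exact t.2 hg) (t.1.countable_toSet.image _)
        obtain ⟨y', hy', hy2⟩ := hC3 (PC (range s)) y hy
        refine ⟨y', closure_mono ?_ hy', fun g hg => hy2 g ?_⟩
        · intro c hc
          exact ⟨hN2 s hs1 (Or.inr ⟨c, hc, rfl⟩), hC1 _ hc⟩
        · show Sum.inr g ∈ range s
          rw [hs2]
          exact Or.inr ⟨g, hg, rfl⟩
    intro y hy
    obtain ⟨y', hy', hy2⟩ := h2 y hy
    rw [iUnion_const] at hy'
    refine ⟨y', hy', fun g hg => hy2 g (mem_iUnion.2 ⟨⟨{g}, ?_⟩, ?_⟩)⟩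
    · intro k hk
      rw [Finset.coe_singleton, mem_singleton_iff] at hk
      rw [hk]; exact hg
    · simp
  obtain ⟨x', hx', hxx⟩ := hD x hx
  have hcard : #(↥(PX N ∩ B)) ≤ continuum :=
    (Cardinal.mk_le_mk_of_subset inter_subset_left).trans (PX_card hN1)
  obtain ⟨D, hD1, hD2, hD3⟩ := corson_tight (hcor _ hcard) x' hx'
  obtain ⟨s, hs1, hs2⟩ := hen (Sum.inl '' D) (by rintro _ ⟨d, hd, rfl⟩; exact (hD1 hd).1)
    (hD2.image _)
  have hPX : PX (range s) ∩ B = D := by
    ext d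
    constructor
    · rintro ⟨h3, -⟩
      have h4 : (Sum.inl d : X ⊕ C(X, ℝ)) ∈ range s := h3
      rw [hs2] at h4
      rcases h4 with h4 | ⟨e, he, h4⟩
      · exact absurd h4 (by simp [z₀])
      · rw [← Sum.inl_injective h4]; exact he
    · intro hd
      refine ⟨?_, (hD1 hd).2⟩
      show Sum.inl d ∈ range s
      rw [hs2]
      exact Or.inr ⟨d, hd, rfl⟩
  have hfN : f D ∈ PC N := by
    have h3 : (Sum.inr (f (PX (range s) ∩ B)) : X ⊕ C(X, ℝ)) ∈ N := hN2 s hs1 (Or.inl rfl)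
    rw [hPX] at h3
    exact h3
  obtain ⟨h5, h6⟩ := hf D (fun d hd => (hD1 hd).2) hD2
  have h7 := hxx (f D) hfN
  rw [h5 x' hD3, h6] at h7
  exact zero_ne_one h7

theorem corson_of_reflects [CompactSpace X] [T2Space X] (hR : Reflects)
    (hcor : ∀ A : Set X, #A ≤ continuum → CorsonOn (closure A)) : CorsonOn (Set.univ : Set X) := by
  classical
  have hct := ctight_of hR hcor
  have hnot : ¬ Stat {M : Set (X ⊕ C(X, ℝ)) | ¬ SepOn (closure (PX M)) (PC M)} Set.univ := by
    intro hst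
    have hsep : ∀ T : Set (X ⊕ C(X, ℝ)), ∃ E : Set C(X, ℝ), T.Countable →
        E.Countable ∧ SepOn (closure (PX T)) E := by
      intro T
      by_cases hT : T.Countable
      swap
      · exact ⟨∅, fun h => absurd h hT⟩
      have hPT : (PX T).Countable := hT.preimage Sum.inl_injective
      obtain ⟨F, hF1, hF2⟩ := hcor (PX T)
        ((Cardinal.le_aleph0_iff_set_countable.2 hPT).trans Cardinal.aleph0_le_continuum)
      refine ⟨{f | f ∈ F ∧ ∃ b ∈ PX T, f b ≠ 0}, fun _ => ⟨?_, ?_⟩⟩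
      · rw [← Cardinal.le_aleph0_iff_set_countable]
        refine (trim_card fun x hx => hF1 x (subset_closure hx)).trans (max_le ?_ le_rfl)
        exact Cardinal.le_aleph0_iff_set_countable.2 hPT
      · intro x hx y hy hxy
        apply hF2 x hx y hy
        intro f hf
        by_contra hne
        exact hne (hxy f (trim_sep hx hy hf hne))
    choose E hE using hsep
    obtain ⟨N, hN1, hN2, hN3⟩ := hR _ (fun s => Sum.inr '' E (range s))
      (fun s => ((hE _ (countable_range s)).1).image _) _ hst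
    have hNs : SepOn (closure (PX N)) (PC N) := by
      intro x hx y hy hxy
      obtain ⟨C, hC, hCc, hxC⟩ := hct _ x hx
      obtain ⟨D, hD, hDc, hyD⟩ := hct _ y hy
      have hne : C.Nonempty := closure_nonempty_iff.1 ⟨x, hxC⟩
      obtain ⟨s, hs⟩ := ((hCc.union hDc).image (Sum.inl : X → X ⊕ C(X, ℝ))).exists_eq_range
        ((hne.inl).image _)
      have hsN : ∀ n, s n ∈ N := by
        intro n
        have : s n ∈ Sum.inl '' (C ∪ D) := by rw [hs]; exact ⟨n, rfl⟩
        obtain ⟨c, hc | hc, h⟩ := this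
        · rw [← h]; exact hC hc
        · rw [← h]; exact hD hc
      have hCs : C ⊆ PX (range s) := fun c hc => by
        show Sum.inl c ∈ range s
        rw [← hs]; exact ⟨c, Or.inl hc, rfl⟩
      have hDs : D ⊆ PX (range s) := fun c hc => by
        show Sum.inl c ∈ range s
        rw [← hs]; exact ⟨c, Or.inr hc, rfl⟩
      exact (hE _ (countable_range s)).2 x (closure_mono hCs hxC) y (closure_mono hDs hyD)
        fun g hg => hxy g (hN2 s hsN ⟨g, hg, rfl⟩)
    obtain ⟨F, hF1, hF2⟩ := hcor (PX N) (PX_card hN1)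
    choose Ef hEf1 hEf2 hEf3 using fun f : C(X, ℝ) => capture_on isClosed_closure hNs f
    obtain ⟨M, hM, hMc, hMN, hMW⟩ := hN3 (fun a => {z | ∃ c, (c ∈ PX N ∧ Sum.inl c ∈ a) ∧
        ∃ f, (f ∈ F ∧ f c ≠ 0) ∧ ∃ g ∈ Ef f, z = Sum.inr g}) (by
      intro a
      have h1 : ({c : X | c ∈ PX N ∧ (Sum.inl c : X ⊕ C(X, ℝ)) ∈ a}).Countable := by
        refine Set.Countable.mono (s₂ := Sum.inl ⁻¹' (↑a : Set (X ⊕ C(X, ℝ)))) (fun c hc => hc.2) ?_
        exact a.countable_toSet.preimage Sum.inl_injective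
      have h2 : ({z | ∃ c, (c ∈ PX N ∧ Sum.inl c ∈ a) ∧
          ∃ f, (f ∈ F ∧ f c ≠ 0) ∧ ∃ g ∈ Ef f, z = Sum.inr g} : Set (X ⊕ C(X, ℝ))) ⊆
          ⋃ c ∈ {c : X | c ∈ PX N ∧ (Sum.inl c : X ⊕ C(X, ℝ)) ∈ a},
            ⋃ f ∈ {f | f ∈ F ∧ f c ≠ 0}, Sum.inr '' Ef f := by
        rintro z ⟨c, hc, f, hf, g, hg, rfl⟩
        simp only [mem_iUnion]
        exact ⟨c, hc, f, hf, g, hg, rfl⟩
      refine Set.Countable.mono h2 (h1.biUnion fun c hc => ?_)
      exact (hF1 c (subset_closure hc.1)).biUnion fun f _ => (hEf2 f).image _) (by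
      rintro a - z ⟨c, -, f, -, g, hg, rfl⟩
      exact hEf1 f hg)
    apply hM
    intro x hx y hy hxy
    have hxN : x ∈ closure (PX N) := closure_mono (PX_mono hMN) hx
    have hyN : y ∈ closure (PX N) := closure_mono (PX_mono hMN) hy
    apply hF2 x hxN y hyN
    intro f hf
    by_contra hne
    obtain ⟨-, c, hcM, hc⟩ := trim_sep hx hy hf hne
    refine hne (hEf3 f x hxN y hyN fun g hg => hxy g ?_)
    refine hMW {Sum.inl c} ?_ ⟨c, ⟨hMN hcM, by simp⟩, f, ⟨hf, hc⟩, g, hg, rfl⟩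
    intro z hz
    rw [Finset.coe_singleton, mem_singleton_iff] at hz
    rw [hz]; exact hcM
  unfold Stat at hnot
  push Not at hnot
  obtain ⟨W, hW1, -, hW2⟩ := hnot
  refine band hct W hW1 fun M hMc hM => ?_
  by_contra h
  exact hW2 M h hMc (subset_univ _) hM

/-- the positive answer, in the form of the question -/
theorem yes_of_reflects (hR : Reflects) (X : Type) [TopologicalSpace X] [CompactSpace X] [T2Space X]
    (h : ∀ A : Set X, #A ≤ continuum → ∃ (Γ : Type) (f : ↥(closure A) → (Γ → ℝ)),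
      IsEmbedding f ∧ ∀ x, (Function.support (f x)).Countable) :
    ∃ (Γ : Type) (f : X → (Γ → ℝ)), IsEmbedding f ∧ ∀ x, (Function.support (f x)).Countable := by
  have h1 : CorsonOn (Set.univ : Set X) := by
    refine corson_of_reflects hR fun A hA => ?_
    obtain ⟨Γ, f, hf, hs⟩ := h A hA
    apply CorsonOn.of_subtype isClosed_closure
    let g : Γ → C(closure A, ℝ) := fun i => ⟨fun x => f x i, (continuous_apply i).comp hf.continuous⟩
    refine ⟨range g, ?_, ?_⟩
    · intro x _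
      have : {k | k ∈ range g ∧ k x ≠ 0} ⊆ g '' {i | f x i ≠ 0} := by
        rintro k ⟨⟨i, rfl⟩, hne⟩
        exact ⟨i, hne, rfl⟩
      exact ((hs x).image _).mono this
    · intro x _ y _ hxy
      apply hf.injective
      funext i
      exact hxy (g i) ⟨i, rfl⟩
  obtain ⟨κ, e, he, hs⟩ := embedding_of_corson h1
  exact ⟨κ, e, he, hs⟩

end Pool.Agent.H969RP
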