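import Pool.Agent.Helper639.CorI
import Pool.Agent.Helper639.CorJ

/-!
Corson compact subspaces: restriction to subspaces, capture and countable tightness.
-/

set_option autoImplicit false

open Set Topology Cardinal

namespace Pool.Agent.H969RP

open Pool.Agent.Helper639.Cor

universe u

variable {X : Type u} [TopologicalSpace X]

theorem corsonOn_univ_of {Z : Set X} (h : CorsonOn Z) : CorsonOn (univ : Set Z) := by
  obtain ⟨F, h1, h2⟩ := h
  refine ⟨(fun f : C(X, ℝ) => f.restrict Z) '' F, ?_, ?_⟩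
  · intro x _
    have : {f | f ∈ (fun f : C(X, ℝ) => f.restrict Z) '' F ∧ f x ≠ 0} ⊆
        (fun f : C(X, ℝ) => f.restrict Z) '' {f | f ∈ F ∧ f x.1 ≠ 0} := by
      rintro f ⟨⟨g, hg, rfl⟩, hne⟩
      exact ⟨g, ⟨hg, hne⟩, rfl⟩
    exact ((h1 x.1 x.2).image _).mono this
  · intro x _ y _ hxy
    apply Subtype.ext
    apply h2 x.1 x.2 y.1 y.2
    intro f hf
    exact hxy _ ⟨f, hf, rfl⟩

theorem sepOn_restrict {Z : Set X} {E : Set C(X, ℝ)} (h : SepOn Z E) :
    SepOn (univ : Set Z) ((fun f : C(X, ℝ) => f.restrict Z) '' E) := by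
  intro x _ y _ hxy
  apply Subtype.ext
  apply h x.1 x.2 y.1 y.2
  intro f hf
  exact hxy _ ⟨f, hf, rfl⟩

theorem capture_on [CompactSpace X] {Z : Set X} (hZ : IsClosed Z) {E : Set C(X, ℝ)}
    (hE : SepOn Z E) (f : C(X, ℝ)) :
    ∃ M ⊆ E, M.Countable ∧ ∀ x ∈ Z, ∀ y ∈ Z, (∀ g ∈ M, g x = g y) → f x = f y := by
  have : CompactSpace Z := isCompact_iff_compactSpace.1 hZ.isCompact
  obtain ⟨M, hM1, hM2, hM3⟩ := capture_countable (sepOn_restrict hE) (f.restrict Z)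
  have h1 : ∀ m : M, ∃ g : C(X, ℝ), g ∈ E ∧ g.restrict Z = m.1 := fun m => hM1 m.2
  choose g hg1 hg2 using h1
  have : Countable M := hM2.to_subtype
  refine ⟨range g, ?_, countable_range g, ?_⟩
  · rintro _ ⟨m, rfl⟩; exact hg1 m
  · intro x hx y hy hxy
    refine hM3 ⟨x, hx⟩ ⟨y, hy⟩ fun m hm => ?_
    have h2 := hxy (g ⟨m, hm⟩) ⟨_, rfl⟩
    have h3 : (g ⟨m, hm⟩).restrict Z = m := hg2 ⟨m, hm⟩
    have h4 := congrArg (fun k : C(Z, ℝ) => k ⟨x, hx⟩) h3
    have h5 := congrArg (fun k : C(Z, ℝ) => k ⟨y, hy⟩) h3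
    exact (h4.symm.trans h2).trans h5

theorem corson_tight [CompactSpace X] {A : Set X} (h : CorsonOn (closure A)) :
    ∀ x ∈ closure A, ∃ C ⊆ A, C.Countable ∧ x ∈ closure C := by
  intro x hx
  have hcpt : CompactSpace (closure A) := isCompact_iff_compactSpace.1 isClosed_closure.isCompact
  obtain ⟨F, hF1, hF2⟩ := corsonOn_univ_of h
  let A' : Set (closure A) := {y | y.1 ∈ A}
  have hA' : ((↑) : closure A → X) '' A' = A := by
    ext z
    constructor
    · rintro ⟨y, hy, rfl⟩; exact hy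
    · intro hz; exact ⟨⟨z, subset_closure hz⟩, hz, rfl⟩
  have hx' : (⟨x, hx⟩ : closure A) ∈ closure A' := by
    rw [closure_subtype, hA']; exact hx
  obtain ⟨C, hCA, hC, x', hx'C, hf⟩ := lemCO hF1 hx'
  have heq : x' = ⟨x, hx⟩ := hF2 _ (mem_univ _) _ (mem_univ _) hf
  rw [heq, closure_subtype] at hx'C
  refine ⟨Subtype.val '' C, ?_, hC.image _, hx'C⟩
  rintro _ ⟨y, hy, rfl⟩
  exact hCA hy

end Pool.Agent.H969RP
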